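import Pool.Agent.H928.LT.Seven

/-!
# An upper bound for the number of mutually orthogonal latin triangles, and the order seven
-/

set_option autoImplicit false

namespace Pool.Agent.Results.MP_38ebc3_co.UpperBound

open Pool.Agent.H928.LT

/-- There are at most `n - 4` mutually orthogonal latin triangles of odd order `n ≥ 7`, and at most `n - 5` of
even order `n ≥ 6`. For `n = 7` the bound is attained: the largest number is `3`. -/
theorem result : (∀ n k : ℕ, k ∈ Molt n →
    (Odd n → 7 ≤ n → k + 4 ≤ n) ∧ (Even n → 6 ≤ n → k + 5 ≤ n)) ∧ IsGreatest (Molt 7) 3 := by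
  refine ⟨fun n k hk => ⟨fun h1 h2 => ?_, fun h1 h2 => ?_⟩, seven⟩
  · have := odd_bound h1 h2 hk
    omega
  · have := even_bound h1 h2 hk
    omega

end Pool.Agent.Results.MP_38ebc3_co.UpperBound
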